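import Pool.Agent.FTU.Stmts

set_option autoImplicit false

open MeasureTheory Complex ProbabilityTheory

namespace Pool.Agent.FTU.H3

open Pool.Agent.Helper49_Pauli
open Pool.Agent.MBX
open Pool.Agent.Loc (γn PB)

/-- One jet of one mode is continuous. -/
lemma jm_cont {ι : Type} (S : Sys ι) (i : ι) (c : Fin 3) (p q r : ℕ) :
    Continuous fun z : ℝ => S.jm i c p q r z := by
  unfold Sys.jm
  fun_prop

/-- `jv` is continuous. -/
lemma jv_cont {ι : Type} (S : Sys ι) (i : ι) (v : Var) : Continuous fun z : ℝ => S.jv i v z := by
  cases v with
  | jet c p q r => exact jm_cont S i c p q r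
  | eta => exact continuous_const
  | z => exact continuous_const
  | zb => exact continuous_const

/-- The point is continuous in a parameter. -/
lemma pt_cont {ι : Type} [Fintype ι] (S : Sys ι) (et : ℝ) {X : Type} [TopologicalSpace X]
    (g : X → ι → ℝ) (h : X → ℝ) (hg : Continuous g) (hh : Continuous h) :
    Continuous fun x : X => pt et (S.jt et (g x) (h x)) 0 := by
  refine continuous_pi fun v => ?_
  cases v with
  | eta => exact continuous_const
  | z => exact continuous_const
  | zb => exact continuous_const
  | jet c p q r =>
    have h1 : Continuous fun x : X => S.jt et (g x) (h x) c p q r := by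
      unfold Sys.jt
      refine Continuous.sub ?_ continuous_const
      refine continuous_finset_sum _ fun i _ => ?_
      exact ((continuous_apply i).comp hg).mul ((jm_cont S i c p q r).comp hh)
    exact Complex.continuous_ofReal.comp h1

/-- The value of a polynomial is continuous in a parameter. -/
lemma ev_cont {ι : Type} [Fintype ι] (S : Sys ι) (et : ℝ) {X : Type} [TopologicalSpace X]
    (g : X → ι → ℝ) (h : X → ℝ) (hg : Continuous g) (hh : Continuous h) (P : RR) :
    Continuous fun x : X => (ev et (S.jt et (g x) (h x)) 0 P).re := by
  have h1 : Continuous fun a : Var → ℂ => MvPolynomial.eval a P := MvPolynomial.continuous_eval P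
  exact Complex.continuous_re.comp (h1.comp (pt_cont S et g h hg hh))

/-- **EVT** of squad FTU. -/
theorem evt (_evx : EvxStmt) (evy : EvyStmt) : EvtStmt := by
  intro ι _ _ S et eps y
  have hc : ∀ P : RR, Continuous fun s : ℝ => (ev et (S.jt et y s) 0 P).re := fun P =>
    ev_cont S et (fun _ => y) (fun s => s) continuous_const continuous_id P
  refine ⟨hc, ?_, ?_⟩
  · intro z
    have h1 : HasDerivAt (fun u : ℝ => ∫ s in (0 : ℝ)..u, (ev et (S.jt et y s) 0 eps).re)
        ((ev et (S.jt et y z) 0 eps).re) z := ((hc eps).integral_hasStrictDerivAt 0 z).hasDerivAt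
    have h2 : HasDerivAt (fun u : ℝ => u / et) (1 / et) z := (hasDerivAt_id z).div_const et
    exact h2.add h1
  · intro z i
    have hu : Continuous fun p : ℝ × ℝ => Function.update y i p.1 :=
      continuous_const.update i continuous_fst
    have hF : ∀ P : RR, Continuous fun p : ℝ × ℝ =>
        (ev et (S.jt et (Function.update y i p.1) p.2) 0 P).re := fun P =>
      ev_cont S et (fun p : ℝ × ℝ => Function.update y i p.1) (fun p => p.2) hu continuous_snd P
    have hF' : Continuous fun p : ℝ × ℝ => ∑ v ∈ eps.vars, S.jv i v p.2 *
        (ev et (S.jt et (Function.update y i p.1) p.2) 0 (MvPolynomial.pderiv v eps)).re := by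
      refine continuous_finset_sum _ fun v _ => ?_
      exact ((jv_cont S i v).comp continuous_snd).mul (hF _)
    have hd : ∀ (s t : ℝ), HasDerivAt
        (fun t : ℝ => (ev et (S.jt et (Function.update y i t) s) 0 eps).re)
        (∑ v ∈ eps.vars, S.jv i v s *
          (ev et (S.jt et (Function.update y i t) s) 0 (MvPolynomial.pderiv v eps)).re) t := by
      intro s t
      have h1 := evy ι S et eps (Function.update y i t) i s 0
      simp only [Function.update_idem, Function.update_self] at h1
      have h2 := (Complex.reCLM.hasFDerivAt (x := ev et (S.jt et (Function.update y i t) s) 0 eps)).comp_hasDerivAt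
        t h1
      have h3 : Complex.reCLM (∑ v ∈ eps.vars, (S.jv i v s : ℂ) *
          ev et (S.jt et (Function.update y i t) s) 0 (MvPolynomial.pderiv v eps)) =
          ∑ v ∈ eps.vars, S.jv i v s *
          (ev et (S.jt et (Function.update y i t) s) 0 (MvPolynomial.pderiv v eps)).re := by
        rw [Complex.reCLM_apply, Complex.re_sum]
        exact Finset.sum_congr rfl fun v _ => Complex.re_ofReal_mul _ _
      rw [h3] at h2
      exact h2
    obtain ⟨C, hC⟩ := ((isCompact_closedBall (y i) 1).prod (isCompact_uIcc (a := (0 : ℝ)) (b := z))).exists_bound_of_continuousOn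
      hF'.continuousOn
    have hmain := (intervalIntegral.hasDerivAt_integral_of_dominated_loc_of_deriv_le
      (μ := volume) (a := 0) (b := z)
      (F := fun (t s : ℝ) => (ev et (S.jt et (Function.update y i t) s) 0 eps).re)
      (F' := fun (t s : ℝ) => ∑ v ∈ eps.vars, S.jv i v s *
          (ev et (S.jt et (Function.update y i t) s) 0 (MvPolynomial.pderiv v eps)).re)
      (x₀ := y i) (s := Metric.closedBall (y i) 1) (bound := fun _ => C)
      (Metric.closedBall_mem_nhds _ one_pos)
      (Filter.Eventually.of_forall fun t => ((hF eps).comp (Continuous.prodMk_right t)).aestronglyMeasurable)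
      (((hF eps).comp (Continuous.prodMk_right (y i))).intervalIntegrable _ _)
      ((hF'.comp (Continuous.prodMk_right (y i))).aestronglyMeasurable)
      (Filter.Eventually.of_forall fun s hs t ht => hC (t, s) ⟨ht, Set.uIoc_subset_uIcc hs⟩)
      intervalIntegrable_const
      (Filter.Eventually.of_forall fun s _ t _ => hd s t)).2
    simp only [Function.update_eq_self] at hmain
    unfold Sys.Th
    exact hmain.const_add (z / et)

end Pool.Agent.FTU.H3
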